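import Mathlib

namespace Pool.Agent.H.MP_d56e90_lc

open Cardinal Set

universe u

theorem fin_union {X : Type u} {ι : Type} (s : Finset ι) (F : ι → Set X) (κ : Cardinal.{u})
    (h : ∀ i, #(F i) < κ) : #(⋃ i ∈ s, F i) < s.card * κ + 1 := by
  classical
  induction s using Finset.induction_on with
  | empty => simp
  | insert a s ha ih =>
    rw [Finset.set_biUnion_insert, Finset.card_insert_of_notMem ha]
    refine (mk_union_le _ _).trans_lt ((Cardinal.add_lt_add (h a) ih).trans_eq ?_)
    push_cast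
    ring

theorem free {X : Type u} (θ κ : Cardinal.{u}) (hθ : θ.IsRegular) (hκ : κ < θ) (hX : θ ≤ #X)
    (F : X → X → Set X) (hF : ∀ a d, #(F a d) < κ) (n : ℕ) :
    ∃ a : ℕ → X, ∀ i j k, i < j → j < k → k < n → a j ∉ F (a i) (a k) := by
  classical
  let T : ℕ → (ℕ → X) → Set X := fun k a => {y | ∀ i j, i < j → j < k → a j ∉ F (a i) y}
  let G : ℕ → (ℕ → X) → Prop := fun n a => ∀ i j k, i < j → j < k → k < n → a j ∉ F (a i) (a k)
  have key : ∀ m k a, G k a → #{d | d ∈ T k a ∧ ∀ b, ¬ G (k + m) b} < θ := by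
    intro m
    induction m with
    | zero =>
      intro k a ha
      have : {d | d ∈ T k a ∧ ∀ b, ¬ G (k + 0) b} = ∅ :=
        eq_empty_of_forall_notMem fun d hd => hd.2 a ha
      rw [this, mk_eq_zero]
      exact hθ.pos
    | succ m ih =>
      intro k a ha
      by_cases hT : #(T k a) < θ
      · exact (mk_le_mk_of_subset fun d hd => hd.1).trans_lt hT
      have hν : (k * κ + 1 : Cardinal) < θ := add_lt_of_lt hθ.aleph0_le
        (mul_lt_of_lt hθ.aleph0_le (natCast_lt_aleph0.trans_le hθ.aleph0_le) hκ)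
        (one_lt_aleph0.trans_le hθ.aleph0_le)
      obtain ⟨Φ, hΦ, hc⟩ := le_mk_iff_exists_subset.1 (hν.le.trans (not_lt.1 hT))
      have g : ∀ x ∈ Φ, G (k + 1) (Function.update a k x) := by
        intro x hx i j l hij hjl hl
        rw [Function.update_of_ne (show j ≠ k by omega), Function.update_of_ne (show i ≠ k by omega)]
        by_cases e : l = k
        · subst e
          rw [Function.update_self]
          exact hΦ hx i j hij hjl
        · rw [Function.update_of_ne e]
          exact ha i j l hij hjl (by omega)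
      refine lt_of_le_of_lt (mk_le_mk_of_subset (t := ⋃ x ∈ Φ,
        {d | d ∈ T (k + 1) (Function.update a k x) ∧ ∀ b, ¬ G (k + 1 + m) b}) ?_)
        ((card_biUnion_lt_iff_forall_of_isRegular hθ (hc ▸ hν)).2 fun x hx => ih _ _ (g x hx))
      rintro d ⟨hd, hd'⟩
      have : ¬ Φ ⊆ ⋃ i ∈ Finset.range k, F (a i) d := fun h => by
        have := (mk_le_mk_of_subset h).trans_lt (fin_union _ _ κ fun i => hF (a i) d)
        rw [hc, Finset.card_range] at this
        exact lt_irrefl _ this
      obtain ⟨x, hx, hx'⟩ := not_subset.1 this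
      refine mem_biUnion hx ⟨fun i j hij hj => ?_, fun b => ?_⟩
      · rw [Function.update_of_ne (show i ≠ k by omega)]
        by_cases e : j = k
        · subst e
          rw [Function.update_self]
          exact fun h => hx' (mem_biUnion (Finset.mem_coe.2 (Finset.mem_range.2 hij)) h)
        · rw [Function.update_of_ne e]
          exact hd i j hij (by omega)
      · rw [show k + 1 + m = k + (m + 1) by omega]
        exact hd' b
  obtain ⟨x⟩ : Nonempty X := mk_ne_zero_iff.1 (hθ.pos.trans_le hX).ne'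
  by_contra h
  have := key n 0 (fun _ => x) fun _ _ _ _ _ h => absurd h (by omega)
  have e : {d | d ∈ T 0 (fun _ => x) ∧ ∀ b, ¬ G (0 + n) b} = Set.univ :=
    eq_univ_of_forall fun d => ⟨fun _ _ _ h => absurd h (by omega),
      fun b hb => h ⟨b, by simpa using hb⟩⟩
  rw [e, mk_univ] at this
  exact this.not_ge hX

theorem shift (r : ℕ) (c : ℕ → ℕ → Fin r) :
    ∃ i j k, i < j ∧ j < k ∧ k < 2 ^ r + 1 ∧ c i j = c j k := by
  by_contra h
  push Not at h
  let S : Fin (2 ^ r + 1) → Finset (Fin r) := fun j => (Finset.range j).image fun i => c i j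
  have key : ∀ j k : Fin (2 ^ r + 1), j < k → S j ≠ S k := by
    intro j k hjk e
    have : c j k ∈ S j := e ▸ Finset.mem_image.2 ⟨j, Finset.mem_range.2 hjk, rfl⟩
    obtain ⟨i, hi, e'⟩ := Finset.mem_image.1 this
    exact h i j k (Finset.mem_range.1 hi) hjk k.2 e'
  have := Fintype.card_le_of_injective S fun j k e => by
    rcases lt_trichotomy j k with h | h | h
    exacts [absurd e (key j k h), h, absurd e.symm (key k j h)]
  simp at this

theorem main (G : Type u) [AddCommGroup G] [Infinite G] (κ : Cardinal.{u}) (hκ : κ < #G)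
    (r : ℕ) (χ : G → Fin r) : ∃ (A : Set G) (g : G), A = (fun a => 2 • g - a) '' A ∧
      (∃ c, ∀ a ∈ A, χ a = c) ∧ κ ≤ #A := by
  by_contra h
  push Not at h
  obtain ⟨θ, hθ, h1, h2⟩ : ∃ θ : Cardinal.{u}, θ.IsRegular ∧ κ < θ ∧ θ ≤ #G := by
    rcases lt_or_ge κ ℵ₀ with e | e
    · exact ⟨ℵ₀, isRegular_aleph0, e, aleph0_le_mk G⟩
    · exact ⟨Order.succ κ, isRegular_succ e, Order.lt_succ κ, Order.succ_le_of_lt hκ⟩
  have hν : (r * κ + 1 : Cardinal) < θ := add_lt_of_lt hθ.aleph0_le
    (mul_lt_of_lt hθ.aleph0_le (natCast_lt_aleph0.trans_le hθ.aleph0_le) h1)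
    (one_lt_aleph0.trans_le hθ.aleph0_le)
  have hS : ∀ g : G, #{u | χ u = χ (2 • g - u)} < r * κ + 1 := by
    intro g
    have := fin_union Finset.univ (fun c => {u | χ u = c ∧ χ (2 • g - u) = c}) κ fun c =>
      h _ g (by
        ext u
        constructor
        · exact fun hu => ⟨2 • g - u, ⟨hu.2, by simpa using hu.1⟩, by simp⟩
        · rintro ⟨v, hv, rfl⟩
          exact ⟨hv.2, by simpa using hv.1⟩) ⟨c, fun _ hu => hu.1⟩
    rw [Finset.card_univ, Fintype.card_fin] at this
    refine (mk_le_mk_of_subset fun u hu => ?_).trans_lt this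
    exact mem_biUnion (Finset.mem_coe.2 (Finset.mem_univ (χ u))) ⟨rfl, hu.symm⟩
  let f : G →+ G := nsmulAddMonoidHom 2
  have hB : #f.ker < θ := by
    refine (mk_le_mk_of_subset (s := (f.ker : Set G)) fun u hu => ?_).trans_lt ((hS 0).trans hν)
    have : 2 • u = 0 := hu
    change χ u = χ _
    congr 1
    rw [smul_zero, zero_sub, eq_neg_iff_add_eq_zero, ← two_nsmul, this]
  have hR : θ ≤ #f.range := by
    by_contra hR
    have e : #G = #(G ⧸ f.ker) * #f.ker := by
      rw [mk_congr (AddSubgroup.addGroupEquivQuotientProdAddSubgroup (s := f.ker))]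
      simp
    rw [e, mk_congr (QuotientAddGroup.quotientKerEquivRange f).toEquiv] at h2
    exact (mul_lt_of_lt hθ.aleph0_le (not_le.1 hR) hB).not_ge h2
  obtain ⟨a, ha⟩ := free θ _ hθ hν hR (fun a d => {x | χ (x.1 - a.1) = χ (d.1 - x.1)}) (by
    rintro ⟨_, a, rfl⟩ ⟨_, d, rfl⟩
    refine lt_of_le_of_lt ?_ (hS (d - a))
    refine mk_le_of_injective (f := fun x => ⟨x.1.1 - f a, ?_⟩) fun x y e => ?_
    · refine x.2.trans (congrArg χ ?_)
      change 2 • d - _ = _ - (_ - 2 • a)
      rw [smul_sub]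
      abel
    · exact Subtype.ext (Subtype.ext (sub_left_injective (congrArg Subtype.val e)))) (2 ^ r + 1)
  obtain ⟨i, j, k, h1, h2, h3, h4⟩ := shift r fun i j => χ ((a j).1 - (a i).1)
  exact ha i j k h1 h2 h3 h4

end Pool.Agent.H.MP_d56e90_lc
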